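import Pool.Agent.H38.WT.Targets

/-! # Row CON: in a tree the intersection of two connected sets is connected -/

set_option autoImplicit false

namespace Pool.Agent.H11.WT

open Pool.Agent.H38.WT

theorem exists_path_in {m : ℕ} {U : SimpleGraph (Fin m)} {A : Set (Fin m)}
    (hA : (U.induce A).Preconnected) {u v : Fin m} (hu : u ∈ A) (hv : v ∈ A) :
    ∃ p : U.Path u v, ∀ x ∈ (p : U.Walk u v).support, x ∈ A := by
  classical
  have key : ∀ a b : A, (U.induce A).Walk a b →
      ∃ w : U.Walk (a : Fin m) (b : Fin m), ∀ x ∈ w.support, x ∈ A := by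
    intro a b w
    induction w with
    | nil =>
      rename_i a
      exact ⟨SimpleGraph.Walk.nil, fun x hx => by
        rw [SimpleGraph.Walk.support_nil, List.mem_singleton] at hx
        rw [hx]
        exact a.2⟩
    | cons h _ ih =>
      rename_i a b c _
      obtain ⟨w, hw⟩ := ih
      have h1 : U.Adj (a : Fin m) (b : Fin m) := h
      refine ⟨SimpleGraph.Walk.cons h1 w, fun x hx => ?_⟩
      rw [SimpleGraph.Walk.support_cons, List.mem_cons] at hx
      rcases hx with hx | hx
      · rw [hx]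
        exact a.2
      · exact hw x hx
  obtain ⟨w⟩ := hA ⟨u, hu⟩ ⟨v, hv⟩
  obtain ⟨w', hw'⟩ := key _ _ w
  exact ⟨w'.toPath, fun x hx => hw' x (SimpleGraph.Walk.support_toPath_subset_support _ hx)⟩

theorem pf_CON : T_CON := by
  intro m U A B hU hA hB
  rintro ⟨u, hu⟩ ⟨v, hv⟩
  obtain ⟨p, hp⟩ := exists_path_in hA hu.1 hv.1
  obtain ⟨q, hq⟩ := exists_path_in hB hu.2 hv.2
  have hpq : p = q := (hU.isAcyclic.subsingleton_path u v).elim p q
  subst hpq
  exact ⟨(p : U.Walk u v).induce (A ∩ B) fun x hx => ⟨hp x hx, hq x hx⟩⟩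

end Pool.Agent.H11.WT
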